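import Pool.Agent.H817.WG.Main

/-!
# Finite Weyl groups of Poisson manifolds of proper type are of Lie type

The Weyl group `W` of a Poisson manifold of proper type acts faithfully, by integral affine
transformations, on the orbifold universal cover `X` of the leaf space, a simply connected integral
affine manifold, and it is generated by geometric reflections of `X`. It is shown here that for
every such action

* the product of two geometric reflections has order `1`, `2`, `3`, `4`, `6` or infinity (this holds
  also if the group is infinite), and
* if `W` is finite, then `W` is the Weyl group of a crystallographic and reduced root system, with
  roots in the lattice of integral vectors and coroots which are integral on the lattice; the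
  isomorphism is given by the differential of the action, and the geometric reflections are exactly
  the reflections of the root system.

So there is no Poisson manifold of proper type whose Weyl group is finite and not of Lie type.

Proof. In a simply connected integral affine manifold the mirror of a geometric reflection is
connected and separates; for this a map to the circle is lifted to the line. If two mirrors do not
meet, ping-pong shows that the product of the reflections has infinite order. If they meet, the two
reflections act on the tangent space of a common point, faithfully, and preserve a lattice there.
Hence in a finite group the differential is injective on the reflections, and Tits' deletion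
argument, with signs of roots at a generic vector, shows that it is injective on the group.
-/

set_option autoImplicit false

open Module Pool.Agent.H817.WG

namespace Pool.Agent.Results.MP_f9c64b_gt.FiniteWeylGroups

section
variable {W X E : Type} [Group W] [TopologicalSpace X] [MulAction W X]
  [NormedAddCommGroup E] [NormedSpace ℝ E]

/-- The root pairing `P` between the real vector space `E` and its dual is crystallographic and
reduced, its roots are elements of the lattice `L` and its coroots are integral on `L`. -/
structure IsIntegralRootSystem (L : Submodule ℤ E) {S : Set E} (P : RootPairing S ℝ E (Dual ℝ E)) :
    Prop where
  pairing_eq : P.toLinearMap = Dual.eval ℝ E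
  root_eq : ∀ i, P.root i = i
  isCrystallographic : P.IsCrystallographic
  isReduced : P.IsReduced
  root_mem : ∀ i, P.root i ∈ L
  coroot_int : ∀ i, ∀ v ∈ L, ∃ n : ℤ, P.coroot i v = n

/-- The isomorphism `e` of the group `W`, which acts on the integral affine manifold `X`, to the
Weyl group of the root system `P` is given by the differential of the action, and it maps the
geometric reflections to the reflections of the root system. -/
structure IsWeylIsomorphism (A : IntegralAffineAction W X E) {S : Set E}
    (P : RootPairing S ℝ E (Dual ℝ E)) (e : W ≃* P.weylGroup) : Prop where
  differential : ∀ w v, e w • v = A.lin w v
  reflections : ∀ r, A.IsReflection r ↔ ∃ i, e r = RootPairing.weylGroup.ofIdx P i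

/-- The group `W`, which acts on the integral affine manifold `X`, is of Lie type: it is the Weyl
group of a finite crystallographic and reduced root system in the space `E` of parallel vector
fields of `X`, and its geometric reflections are the reflections of the root system. -/
def IsOfLieType (A : IntegralAffineAction W X E) : Prop :=
  ∃ (S : Set E) (P : RootPairing S ℝ E (Dual ℝ E)) (e : W ≃* P.weylGroup),
    S.Finite ∧ IsIntegralRootSystem A.lattice P ∧ IsWeylIsomorphism A P e

end

/-- Let the group `W` act faithfully by integral affine transformations on the simply connected
integral affine manifold `X`. The product of two geometric reflections in `W` has order `1`, `2`,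
`3`, `4`, `6` or infinity (`orderOf = 0`). If `W` is finite and generated by geometric reflections,
then it is of Lie type. -/
theorem result (W X E : Type) [Group W] [TopologicalSpace X] [T2Space X]
    [SecondCountableTopology X] [SimplyConnectedSpace X] [MulAction W X]
    [NormedAddCommGroup E] [NormedSpace ℝ E] [FiniteDimensional ℝ E]
    (A : IntegralAffineAction W X E) :
    (∀ r s : W, A.IsReflection r → A.IsReflection s →
      orderOf (r * s) ∈ ({0, 1, 2, 3, 4, 6} : Set ℕ)) ∧
    (Finite W → Subgroup.closure {r : W | A.IsReflection r} = ⊤ → IsOfLieType A) := by
  refine ⟨fun r s hr hs => A.orderOf_mul r s hr hs, fun _ hgen => ?_⟩
  obtain ⟨S, P, h1, h2, h3, h4, h5, h6, h7, e, h8, h9⟩ := A.exists_rootPairing hgen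
  exact ⟨S, P, e, h1, ⟨h2, h3, h4, h5, h6, h7⟩, ⟨h8, h9⟩⟩

end Pool.Agent.Results.MP_f9c64b_gt.FiniteWeylGroups
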